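import Mathlib

set_option autoImplicit false

namespace Pool.Agent.Results.MP_b09cb0_an.No

open Filter Topology

def Ent (c : ℕ → ℝ) : Prop := ∀ R : ℝ, 0 ≤ R → Summable fun n => |c n| * R ^ n

noncomputable def S (c : ℕ → ℝ) (y : ℝ) : ℝ := ∑' n, c n * y ^ n

def Dc (c : ℕ → ℝ) : ℕ → ℝ := fun n => (n + 1) * c (n + 1)

lemma Ent.summable {c : ℕ → ℝ} (h : Ent c) (y : ℝ) : Summable fun n => c n * y ^ n := by
  refine Summable.of_norm ?_
  simpa [abs_mul, abs_pow] using h |y| (abs_nonneg y)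

lemma Ent.D {c : ℕ → ℝ} (h : Ent c) : Ent (Dc c) := by
  intro R hR
  have h1 : Summable fun n => |c (n + 1)| * (2 * (R + 1)) ^ (n + 1) :=
    (summable_nat_add_iff 1).2 (h (2 * (R + 1)) (by positivity))
  refine Summable.of_nonneg_of_le (fun n => by positivity) (fun n => ?_) h1
  have a1 : ((n : ℝ) + 1) ≤ 2 ^ (n + 1) := by
    have : n + 1 ≤ 2 ^ (n + 1) := Nat.lt_two_pow_self.le
    exact_mod_cast this
  have a2 : R ^ n ≤ (R + 1) ^ (n + 1) :=
    (pow_le_pow_left₀ hR (by linarith) n).trans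
      (pow_le_pow_right₀ (by linarith) (Nat.le_succ n))
  have a3 : |Dc c n| = ((n : ℝ) + 1) * |c (n + 1)| := by
    simp only [Dc, abs_mul]
    rw [abs_of_nonneg (by positivity)]
  rw [a3, mul_pow]
  calc ((n : ℝ) + 1) * |c (n + 1)| * R ^ n = |c (n + 1)| * ((n + 1) * R ^ n) := by ring
    _ ≤ |c (n + 1)| * (2 ^ (n + 1) * (R + 1) ^ (n + 1)) := by
      apply mul_le_mul_of_nonneg_left _ (abs_nonneg _)
      exact mul_le_mul a1 a2 (by positivity) (by positivity)

lemma Ent.analytic {c : ℕ → ℝ} (h : Ent c) (y : ℝ) : AnalyticAt ℝ (S c) y := by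
  have hr : (FormalMultilinearSeries.ofScalars ℝ c).radius = ⊤ := by
    apply FormalMultilinearSeries.radius_eq_top_of_summable_norm
    intro r
    simpa [FormalMultilinearSeries.ofScalars_norm] using h r r.2
  have ha := (FormalMultilinearSeries.ofScalars ℝ c).analyticOnNhd y (by simp [hr])
  have e : (FormalMultilinearSeries.ofScalars ℝ c).sum = S c := by
    have := FormalMultilinearSeries.ofScalarsSum_eq_tsum (E := ℝ) c
    funext x
    have h2 := congrFun this x
    simpa [S, FormalMultilinearSeries.ofScalarsSum] using h2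
  rwa [e] at ha

lemma Ent.deriv {c : ℕ → ℝ} (h : Ent c) (y : ℝ) : HasDerivAt (S c) (S (Dc c) y) y := by
  set R := |y| + 1 with hR
  have hR0 : 0 ≤ R := by positivity
  have hu : Summable fun n : ℕ => |c n| * (n * R ^ (n - 1)) := by
    rw [← summable_nat_add_iff 1]
    refine (h.D R hR0).congr fun n => ?_
    simp only [Dc, abs_mul, Nat.add_sub_cancel, Nat.cast_add, Nat.cast_one]
    rw [abs_of_nonneg (by positivity : (0 : ℝ) ≤ n + 1)]
    ring
  have key := hasDerivAt_tsum_of_isPreconnected (g := fun n z => c n * z ^ n)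
    (g' := fun n z => c n * (n * z ^ (n - 1))) (t := Metric.ball 0 R) (y₀ := y) (y := y) hu
    Metric.isOpen_ball (convex_ball 0 R).isPreconnected
    (fun n z _ => by simpa using (hasDerivAt_pow n z).const_mul (c n))
    (fun n z hz => by
      have hz' : |z| ≤ R := by
        have := mem_ball_zero_iff.1 hz
        exact le_of_lt (by simpa using this)
      simp only [Real.norm_eq_abs, abs_mul, abs_pow, Nat.abs_cast]
      gcongr)
    (by simp [hR]) (h.summable y) (by simp [hR])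
  have hs : Summable fun n : ℕ => c n * (n * y ^ (n - 1)) := by
    rw [← summable_nat_add_iff 1]
    refine (h.D.summable y).congr fun n => ?_
    simp only [Dc, Nat.add_sub_cancel, Nat.cast_add, Nat.cast_one]
    ring
  have e : ∑' n : ℕ, c n * (n * y ^ (n - 1)) = S (Dc c) y := by
    rw [hs.tsum_eq_zero_add]
    simp only [S, Dc, Nat.add_sub_cancel, Nat.cast_add, Nat.cast_one, Nat.cast_zero, zero_mul,
      mul_zero, zero_add]
    refine tsum_congr fun n => by ring
  rw [e] at key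
  exact key

noncomputable def a (u v : ℝ) : ℕ → ℝ
  | 0 => u
  | 1 => v
  | 2 => 0
  | (n + 3) => 4 * a u v n / ((n + 2) * (n + 3))

lemma a_ent (u v : ℝ) : Ent (a u v) := by
  intro R hR
  set T := 2 * R with hT
  have hT0 : 0 ≤ T := by positivity
  obtain ⟨N, hN⟩ := exists_nat_ge (4 * T ^ 3)
  set C := ∑ k ∈ Finset.range (N + 3), |a u v k| * T ^ k with hC
  have hb : ∀ n, |a u v n| * T ^ n ≤ C := by
    intro n
    induction n using Nat.strong_induction_on with
    | _ n ih =>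
      by_cases hn : n < N + 3
      · exact Finset.single_le_sum (f := fun k => |a u v k| * T ^ k)
          (fun k _ => by positivity) (Finset.mem_range.2 hn)
      · obtain ⟨m, rfl⟩ : ∃ m, n = m + 3 := ⟨n - 3, by omega⟩
        have hm : (N : ℝ) ≤ m := by exact_mod_cast (by omega : N ≤ m)
        have hm0 : (0 : ℝ) ≤ m := Nat.cast_nonneg m
        have hp : (0 : ℝ) < (m + 2) * (m + 3) := by positivity
        have h1 := ih m (by omega)
        have h2 : 4 * T ^ 3 / ((m + 2) * (m + 3)) ≤ 1 := by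
          rw [div_le_one hp]; nlinarith
        have h3 : |a u v (m + 3)| * T ^ (m + 3)
            = (|a u v m| * T ^ m) * (4 * T ^ 3 / ((m + 2) * (m + 3))) := by
          have : a u v (m + 3) = 4 * a u v m / ((m + 2) * (m + 3)) := rfl
          rw [this, abs_div, abs_mul, abs_of_pos hp, abs_of_pos (by norm_num : (0 : ℝ) < 4)]
          ring
        rw [h3]
        calc _ ≤ (|a u v m| * T ^ m) * 1 := by gcongr
          _ ≤ C := by linarith
  refine Summable.of_nonneg_of_le (fun n => by positivity) (fun n => ?_)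
    (summable_geometric_two.mul_left C)
  have : R ^ n = T ^ n * (1 / 2) ^ n := by rw [← mul_pow, hT]; congr 1; ring
  rw [this, ← mul_assoc]
  exact mul_le_mul_of_nonneg_right (hb n) (by positivity)

lemma airy (u v y : ℝ) : S (Dc (Dc (a u v))) y = 4 * y * S (a u v) y := by
  unfold S
  rw [((a_ent u v).D.D.summable y).tsum_eq_zero_add, ← tsum_mul_left]
  have h0 : Dc (Dc (a u v)) 0 = 0 := by simp [Dc, a]
  rw [h0, zero_mul, zero_add]
  refine tsum_congr fun n => ?_
  have : a u v (n + 1 + 1 + 1) = 4 * a u v n / ((n + 2) * (n + 3)) := rfl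
  simp only [Dc]
  rw [this]
  push_cast
  field_simp
  ring

lemma S_zero (c : ℕ → ℝ) : S c 0 = c 0 := by
  unfold S
  rw [tsum_eq_single 0]
  · simp
  · intro n hn; simp [hn]

noncomputable def F (u v y : ℝ) : ℝ := S (a u v) y
noncomputable def F' (u v y : ℝ) : ℝ := S (Dc (a u v)) y

lemma dF (u v y : ℝ) : HasDerivAt (F u v) (F' u v y) y := (a_ent u v).deriv y
lemma dF' (u v y : ℝ) : HasDerivAt (F' u v) (4 * y * F u v y) y := by
  have := (a_ent u v).D.deriv y
  rwa [airy] at this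
lemma F0 (u v : ℝ) : F u v 0 = u := by simp [F, S_zero, a]
lemma F'0 (u v : ℝ) : F' u v 0 = v := by simp [F', S_zero, Dc, a]

lemma wron (y : ℝ) : F 1 0 y * F' 0 1 y - F' 1 0 y * F 0 1 y = 1 := by
  have hd : ∀ y, HasDerivAt (fun y => F 1 0 y * F' 0 1 y - F' 1 0 y * F 0 1 y) 0 y := by
    intro y
    have := ((dF 1 0 y).mul (dF' 0 1 y)).sub ((dF' 1 0 y).mul (dF 0 1 y))
    exact this.congr_deriv (by ring)
  have := is_const_of_deriv_eq_zero (fun y => (hd y).differentiableAt) (fun y => (hd y).deriv) y 0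
  simpa [F0, F'0] using this

noncomputable def P (u v x y : ℝ) : ℝ := 2 * x ^ 2 * F u v y + F' u v y

lemma den_pos (x y : ℝ) : 0 < P 1 0 x y ^ 2 + P 0 1 x y ^ 2 := by
  have hw := wron y
  have : F 1 0 y * P 0 1 x y - P 1 0 x y * F 0 1 y = 1 := by
    unfold P; linarith
  by_contra hcon
  have h1 : P 1 0 x y = 0 := by nlinarith [sq_nonneg (P 1 0 x y), sq_nonneg (P 0 1 x y)]
  have h2 : P 0 1 x y = 0 := by nlinarith [sq_nonneg (P 1 0 x y), sq_nonneg (P 0 1 x y)]
  rw [h1, h2] at this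
  norm_num at this

lemma dPx (u v x y : ℝ) : HasDerivAt (fun s => P u v s y) (4 * x * F u v y) x := by
  have := (((hasDerivAt_pow 2 x).const_mul 2).mul_const (F u v y)).add_const (F' u v y)
  exact this.congr_deriv (by push_cast; ring)

lemma dPy (u v x y : ℝ) :
    HasDerivAt (fun s => P u v x s) (2 * x ^ 2 * F' u v y + 4 * y * F u v y) y :=
  ((dF u v y).const_mul (2 * x ^ 2)).add (dF' u v y)

lemma P_an (u v : ℝ) (p : ℝ × ℝ) : AnalyticAt ℝ (fun q : ℝ × ℝ => P u v q.1 q.2) p := by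
  have h1 : AnalyticAt ℝ (fun q : ℝ × ℝ => F u v q.2) p :=
    ((a_ent u v).analytic p.2).comp analyticAt_snd
  have h2 : AnalyticAt ℝ (fun q : ℝ × ℝ => F' u v q.2) p :=
    ((a_ent u v).D.analytic p.2).comp analyticAt_snd
  exact ((analyticAt_const.mul (analyticAt_fst.pow 2)).mul h1).add h2

theorem result : ∃ E : Polynomial ℝ, (∀ x, E.eval (-x) = E.eval x) ∧ 4 ≤ E.natDegree ∧
    ∃ H : ℝ × ℝ → ℝ, AnalyticOnNhd ℝ H Set.univ ∧ (∃ p q, H p ≠ H q) ∧
      ∀ x y : ℝ, (y - E.eval x) * deriv (fun s => H (s, y)) x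
        - x * deriv (fun s => H (x, s)) y = 0 := by
  refine ⟨Polynomial.X ^ 4, fun x => by simp; ring, by simp,
    fun q => P 1 0 q.1 q.2 ^ 2 / (P 1 0 q.1 q.2 ^ 2 + P 0 1 q.1 q.2 ^ 2), ?_, ?_, ?_⟩
  · intro p _
    exact ((P_an 1 0 p).pow 2).div (((P_an 1 0 p).pow 2).add ((P_an 0 1 p).pow 2))
      (den_pos p.1 p.2).ne'
  · refine ⟨(0, 0), (1, 0), ?_⟩
    simp [P, F0, F'0]
    norm_num
  · intro x y
    have hx := ((dPx 1 0 x y).pow 2).div (((dPx 1 0 x y).pow 2).add ((dPx 0 1 x y).pow 2))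
      (den_pos x y).ne'
    have hy := ((dPy 1 0 x y).pow 2).div (((dPy 1 0 x y).pow 2).add ((dPy 0 1 x y).pow 2))
      (den_pos x y).ne'
    have ex : deriv (fun s => P 1 0 s y ^ 2 / (P 1 0 s y ^ 2 + P 0 1 s y ^ 2)) x = _ := hx.deriv
    have ey : deriv (fun s => P 1 0 x s ^ 2 / (P 1 0 x s ^ 2 + P 0 1 x s ^ 2)) y = _ := hy.deriv
    show (y - Polynomial.eval x (Polynomial.X ^ 4)) *
      deriv (fun s => P 1 0 s y ^ 2 / (P 1 0 s y ^ 2 + P 0 1 s y ^ 2)) x
        - x * deriv (fun s => P 1 0 x s ^ 2 / (P 1 0 x s ^ 2 + P 0 1 x s ^ 2)) y = 0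
    rw [ex, ey]
    have hne := (den_pos x y).ne'
    simp only [Polynomial.eval_pow, Polynomial.eval_X, Pi.pow_apply, Pi.add_apply]
    field_simp
    simp only [P]
    push_cast
    ring

end Pool.Agent.Results.MP_b09cb0_an.No
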